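import Pool.Agent.EHW.Enc
import Pool.Agent.EHD.Asym

/-!
# Deterministic injective encodings of edit distance into the Hamming cube: expansion
`O(log* n)` at almost all strings (MP_7d1a15_lc, Q1)

For every `A ≥ 1` there are injective maps `f_n : T_n → {0,1}^{m(n)}` with
`m(n) ≤ n ^ (30 A + 25)` such that `H(f_n x, f_n y) ≤ 224 log* n` for every `x ∈ T_n` whose
substrings of length `A ⌊log₂ n⌋` at different positions are different and every `y ∈ T_n` with
`ed(x, y) = 1`.  For `N ≤ n`, all but `2 ^ A * n ^ 2 * 2 ^ N / n ^ A` of the `2 ^ N` strings `x` of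
length `N` satisfy the condition.
-/

set_option autoImplicit false

namespace Pool.Agent.Results.MP_7d1a15_lc.AlmostAll

open Filter Topology
open Pool.Agent.EHD (logStar)

/-- `T_n`: the nonempty binary strings of length at most `n`. -/
def T (n : ℕ) : Set (List Bool) := {x | x ≠ [] ∧ x.length ≤ n}

/-- One insertion, deletion or substitution of a character turns `x` into `y`. -/
inductive Edit : List Bool → List Bool → Prop
  | ins (u v : List Bool) (c : Bool) : Edit (u ++ v) (u ++ c :: v)
  | del (u v : List Bool) (c : Bool) : Edit (u ++ c :: v) (u ++ v)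
  | sub (u v : List Bool) (c d : Bool) : Edit (u ++ c :: v) (u ++ d :: v)

/-- The edit distance: the least number of insertions, deletions and substitutions that turn `x`
into `y`. -/
noncomputable def ed (x y : List Bool) : ℕ :=
  sInf {k | ∃ z : ℕ → List Bool, z 0 = x ∧ z k = y ∧ ∀ i < k, Edit (z i) (z (i + 1))}

/-- The substrings of length `w` of `x` that start at different positions are different. -/
def DistinctWindows (w : ℕ) (x : List Bool) : Prop :=
  ∀ i j, i < j → j + w ≤ x.length → (x.drop i).take w ≠ (x.drop j).take w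

lemma edit_of_ed {x y : List Bool} (h : ed x y = 1) : Edit x y := by
  have hne : {k | ∃ z : ℕ → List Bool, z 0 = x ∧ z k = y ∧
      ∀ i < k, Edit (z i) (z (i + 1))}.Nonempty := by
    by_contra hcon
    rw [Set.not_nonempty_iff_eq_empty] at hcon
    unfold ed at h
    rw [hcon] at h
    simp at h
  have h1 := Nat.sInf_mem hne
  unfold ed at h
  rw [h] at h1
  obtain ⟨z, hz0, hz1, hz⟩ := h1
  have := hz 0 (by norm_num)
  rw [hz0] at this
  rw [← hz1]
  exact this

lemma parts_of_edit {x y : List Bool} (h : Edit x y) : ∃ u a b t : List Bool,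
    a.length ≤ 1 ∧ b.length ≤ 1 ∧ x = u ++ (a ++ t) ∧ y = u ++ (b ++ t) := by
  cases h with
  | ins u v c => exact ⟨u, [], [c], v, by simp, by simp, by simp, by simp⟩
  | del u v c => exact ⟨u, [c], [], v, by simp, by simp, by simp, by simp⟩
  | sub u v c d => exact ⟨u, [c], [d], v, by simp, by simp, by simp, by simp⟩

/-- For every `A ≥ 1` there are, for all `n ≥ 2`, injective maps `f_n : T_n → {0,1}^{m(n)}` with
`m(n) ≤ n ^ (30 A + 25)` and numbers `C(n) ≤ 224 log* n`, `C(n) = o(log n)`, such that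
`H(f_n x, f_n y) ≤ C(n)` whenever `x ∈ T_n` has different substrings of length `A ⌊log₂ n⌋` at
different positions, `y ∈ T_n` and `ed(x, y) = 1`.  For `N ≤ n`, the number of strings `x` of length
`N` without this property, times `n ^ A`, is at most `2 ^ A * n ^ 2 * 2 ^ N`. -/
theorem result (A : ℕ) (hA : 1 ≤ A) :
    ∃ m C : ℕ → ℕ,
      (∀ n, 2 ≤ n → m n ≤ n ^ (30 * A + 25) ∧ C n ≤ 224 * logStar n ∧
        ∃ f : List Bool → (Fin (m n) → Bool), Set.InjOn f (T n) ∧
          ∀ x ∈ T n, DistinctWindows (A * Nat.log 2 n) x →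
            ∀ y ∈ T n, ed x y = 1 → hammingDist (f x) (f y) ≤ C n) ∧
      Tendsto (fun n => (C n : ℝ) / Real.log n) atTop (𝓝 0) ∧
      (∀ n N, N ≤ n →
        {x : List Bool | x.length = N ∧ ¬ DistinctWindows (A * Nat.log 2 n) x}.ncard * n ^ A
          ≤ 2 ^ A * n ^ 2 * 2 ^ N) := by
  have key : ∀ n, ∃ m, 2 ≤ n → m ≤ n ^ (30 * A + 25) ∧
      ∃ f : List Bool → (Fin m → Bool), Set.InjOn f (T n) ∧
        ∀ x ∈ T n, DistinctWindows (A * Nat.log 2 n) x →
          ∀ y ∈ T n, ed x y = 1 → hammingDist (f x) (f y) ≤ 224 * logStar n := by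
    intro n
    by_cases hn : 2 ≤ n
    · obtain ⟨m, hm, f, h1, h2⟩ := Pool.Agent.EHW.exists_enc n A hn hA
      refine ⟨m, fun _ => ⟨hm, f, ?_, ?_⟩⟩
      · intro x hx y hy hxy
        exact h1 x y hx.1 hx.2 hy.1 hy.2 hxy
      · intro x hx hd y hy hxy
        obtain ⟨u, a, b, t, ha, hb, rfl, rfl⟩ := parts_of_edit (edit_of_ed hxy)
        exact h2 u a b t ha hb hx.2 hy.2 hd
    · exact ⟨0, fun h => absurd h hn⟩
  choose m hm using key
  refine ⟨m, fun n => 224 * logStar n, ?_, ?_, ?_⟩
  · intro n hn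
    obtain ⟨h1, h2⟩ := hm n hn
    exact ⟨h1, le_rfl, h2⟩
  · have h1 : Tendsto (fun n : ℕ => 224 * ((logStar n : ℝ) / Real.log n)) atTop (𝓝 (224 * 0)) :=
      Pool.Agent.EHD.logStar_div_log.const_mul 224
    rw [mul_zero] at h1
    refine h1.congr (fun n => ?_)
    push_cast
    ring
  · intro n N hN
    exact Pool.Agent.EHW.ncard_bad n A N hN

end Pool.Agent.Results.MP_7d1a15_lc.AlmostAll
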