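import Pool.Agent.EHK.Strings

/-!
# Injective encodings of edit distance into the Hamming cube of near-linear dimension have large
expansion (MP_7d1a15_lc, partial negative answer to Q1)

For every injective map `f : T_n → {0,1}^m` of expansion at most `C`, `n ≥ 2`:
`log n ≤ 1000 * C * log (2 m / n)`.  Hence `C = o(log n)` is impossible for `m = O(n)`, and
bounded expansion is impossible for `m = n ^ (1 + o(1))`.
-/

set_option autoImplicit false

namespace Pool.Agent.Results.MP_7d1a15_lc.LowerBound

open Filter Topology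

/-- `T_n`: the nonempty binary strings of length at most `n`. -/
def T (n : ℕ) : Set (List Bool) := {x | x ≠ [] ∧ x.length ≤ n}

/-- One insertion, deletion or substitution of a character turns `x` into `y`. -/
inductive Edit : List Bool → List Bool → Prop
  | ins (u v : List Bool) (c : Bool) : Edit (u ++ v) (u ++ c :: v)
  | del (u v : List Bool) (c : Bool) : Edit (u ++ c :: v) (u ++ v)
  | sub (u v : List Bool) (c d : Bool) : Edit (u ++ c :: v) (u ++ d :: v)

/-- The edit distance: the least number of insertions, deletions and substitutions that turn `x`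
into `y`. -/
noncomputable def ed (x y : List Bool) : ℕ :=
  sInf {k | ∃ z : ℕ → List Bool, z 0 = x ∧ z k = y ∧ ∀ i < k, Edit (z i) (z (i + 1))}

/-- `f` is an injective map on `T_n` of expansion at most `C`. -/
def Good (n m C : ℕ) (f : List Bool → (Fin m → Bool)) : Prop :=
  Set.InjOn f (T n) ∧ ∀ x ∈ T n, ∀ y ∈ T n, ed x y = 1 → hammingDist (f x) (f y) ≤ C

lemma ed_of_edit {x y : List Bool} (h : Edit x y) (hne : x ≠ y) : ed x y = 1 := by
  have h1 : 1 ∈ {k | ∃ z : ℕ → List Bool, z 0 = x ∧ z k = y ∧
      ∀ i < k, Edit (z i) (z (i + 1))} := by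
    refine ⟨fun i => if i = 0 then x else y, if_pos rfl, if_neg one_ne_zero, fun i hi => ?_⟩
    have hi0 : i = 0 := by omega
    subst hi0
    exact h
  have hle : ed x y ≤ 1 := Nat.sInf_le h1
  have hmem := Nat.sInf_mem ⟨1, h1⟩
  have h0 : ed x y ≠ 0 := by
    intro h0
    unfold ed at h0
    rw [h0] at hmem
    obtain ⟨z, hz0, hz1, -⟩ := hmem
    exact hne (hz0.symm.trans hz1)
  omega

lemma Good.edit {n m C : ℕ} {f : List Bool → (Fin m → Bool)} (h : Good n m C f)
    {x y : List Bool} (hx : x ∈ T n) (hy : y ∈ T n) (he : Edit x y) :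
    hammingDist (f x) (f y) ≤ C := by
  by_cases hxy : x = y
  · rw [hxy, hammingDist_self]
    exact Nat.zero_le _
  · exact h.2 x hx y hy (ed_of_edit he hxy)

/-- the main inequality -/
theorem main {n m C : ℕ} {f : List Bool → (Fin m → Bool)} (hn : 2 ≤ n) (h : Good n m C f) :
    Real.log n ≤ 1000 * C * Real.log (2 * m / n) := by
  obtain ⟨k, hk⟩ : ∃ k, n = k + 1 := ⟨n - 1, by omega⟩
  have hmem : ∀ x : Fin (k + 1) → Bool, Pool.Agent.EHK.str x ∈ T n := fun x =>
    ⟨Pool.Agent.EHK.str_ne_nil x, by rw [Pool.Agent.EHK.str_length, hk]⟩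
  refine Pool.Agent.EHK.cube_bound (k := k) hk (f := fun x => f (Pool.Agent.EHK.str x)) ?_
    (by omega) ?_ ?_
  · intro x y hxy
    exact Pool.Agent.EHK.str_inj (h.1 (hmem x) (hmem y) hxy)
  · intro p x
    obtain ⟨u, v, c, d, h1, h2⟩ := Pool.Agent.EHK.str_flp p x
    refine h.edit (hmem _) (hmem _) ?_
    rw [h1, h2]
    exact Edit.sub u v c d
  · intro x b
    obtain ⟨v, c, hv, h1, h2⟩ := Pool.Agent.EHK.str_sh b x
    have hvT : v ∈ T n := by
      refine ⟨?_, by omega⟩
      intro h0
      rw [h0] at hv
      simp at hv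
      omega
    have e1 : hammingDist (f (Pool.Agent.EHK.str x)) (f v) ≤ C := by
      refine h.edit (hmem x) hvT ?_
      rw [h1]
      exact Edit.del [] v c
    have e2 : hammingDist (f v) (f (Pool.Agent.EHK.str (Pool.Agent.EHK.sh b x))) ≤ C := by
      refine h.edit hvT (hmem _) ?_
      rw [h2]
      have := Edit.ins v [] b
      rwa [List.append_nil] at this
    have e3 := hammingDist_triangle (f (Pool.Agent.EHK.str x)) (f v)
      (f (Pool.Agent.EHK.str (Pool.Agent.EHK.sh b x)))
    show hammingDist (f (Pool.Agent.EHK.str x)) (f (Pool.Agent.EHK.str (Pool.Agent.EHK.sh b x))) ≤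
      2 * C
    omega

/-- Lower bounds for the expansion of injective maps `f_n : T_n → {0,1}^{m(n)}`.
(1) `log n ≤ 1000 * C * log (2 m / n)` for every `n ≥ 2` and every injective map of expansion at
most `C`.
(2) If `m(n) = O(n)` then `C(f_n) ≥ c log n` for some `c > 0` and all large `n` (so the answer to Q1
is negative for the exponent `c = 1`).
(3) If `m(n) = n ^ (1 + o(1))` then `C(f_n) → ∞`. -/
theorem result :
    (∀ (n m C : ℕ) (f : List Bool → (Fin m → Bool)), 2 ≤ n → Good n m C f →
      Real.log n ≤ 1000 * C * Real.log (2 * m / n)) ∧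
    (∀ (m C : ℕ → ℕ) (f : ∀ n, List Bool → (Fin (m n) → Bool)), (∀ n, Good n (m n) (C n) (f n)) →
      (fun n : ℕ => (m n : ℝ)) =O[atTop] (fun n : ℕ => (n : ℝ)) →
      ∃ c : ℝ, 0 < c ∧ ∀ᶠ n : ℕ in atTop, c * Real.log n ≤ C n) ∧
    (∀ (m C : ℕ → ℕ) (f : ∀ n, List Bool → (Fin (m n) → Bool)), (∀ n, Good n (m n) (C n) (f n)) →
      Tendsto (fun n : ℕ => Real.log (m n) / Real.log n) atTop (𝓝 1) → Tendsto C atTop atTop) := by
  refine ⟨fun n m C f hn h => main hn h, fun m C f h hO => ?_, fun m C f h hlim => ?_⟩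
  · obtain ⟨K, hK⟩ := hO.bound
    have hK1 : 1 ≤ max K 1 := le_max_right _ _
    have hlogK : 0 < Real.log (2 * max K 1) := Real.log_pos (by linarith)
    refine ⟨1 / (1000 * Real.log (2 * max K 1)), by positivity, ?_⟩
    filter_upwards [hK, eventually_ge_atTop 2] with n hn hn2
    have hn0 : (0 : ℝ) < n := by exact_mod_cast (by omega : 0 < n)
    rw [Real.norm_of_nonneg (Nat.cast_nonneg _), Real.norm_of_nonneg (Nat.cast_nonneg _)] at hn
    have h1 := main hn2 (h n)
    have hC : (0 : ℝ) ≤ C n := Nat.cast_nonneg _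
    rcases Nat.eq_zero_or_pos (m n) with hm | hm
    · rw [hm] at h1
      simp at h1
      have h2 : 0 < Real.log n := Real.log_pos (by exact_mod_cast (by omega : 1 < n))
      linarith
    · have hm0 : (0 : ℝ) < m n := by exact_mod_cast hm
      have h2 : Real.log (2 * m n / n) ≤ Real.log (2 * max K 1) := by
        refine Real.log_le_log (by positivity) ?_
        rw [div_le_iff₀ hn0]
        have := mul_le_mul_of_nonneg_right (le_max_left K 1) hn0.le
        linarith
      have h3 : Real.log n ≤ 1000 * C n * Real.log (2 * max K 1) :=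
        h1.trans (mul_le_mul_of_nonneg_left h2 (by positivity))
      rw [div_mul_eq_mul_div, one_mul, div_le_iff₀ (by positivity)]
      linarith
  · rw [tendsto_atTop]
    intro b
    -- for large `n`: `log (2 m / n) ≤ log n / (1000 b + 1000)`
    set η : ℝ := 1 / (2000 * ((b : ℝ) + 1)) with hη
    have hb0 : (0 : ℝ) < (b : ℝ) + 1 := by positivity
    have hη0 : 0 < η := by positivity
    have h1 : ∀ᶠ n in atTop, Real.log (m n) / Real.log n < 1 + η :=
      hlim.eventually_lt_const (by linarith)
    have h2 : Tendsto (fun n : ℕ => Real.log (n : ℝ)) atTop atTop :=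
      Real.tendsto_log_atTop.comp tendsto_natCast_atTop_atTop
    have h3 : ∀ᶠ n : ℕ in atTop, Real.log 2 / η < Real.log (n : ℝ) := h2.eventually_gt_atTop _
    filter_upwards [h1, h3, eventually_ge_atTop 2] with n hn1 hn3 hn2
    have hn0 : (0 : ℝ) < n := by exact_mod_cast (by omega : 0 < n)
    have hlog : 0 < Real.log n := Real.log_pos (by exact_mod_cast (by omega : 1 < n))
    by_contra hcon
    rw [not_le] at hcon
    have hCb : (C n : ℝ) ≤ b := by exact_mod_cast hcon.le
    have h4 := main hn2 (h n)
    rcases Nat.eq_zero_or_pos (m n) with hm | hm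
    · rw [hm] at h4
      simp at h4
      linarith
    · have hm0 : (0 : ℝ) < m n := by exact_mod_cast hm
      have h5 : Real.log (2 * m n / n) = Real.log 2 + Real.log (m n) - Real.log n := by
        rw [Real.log_div (by positivity) hn0.ne', Real.log_mul (by norm_num) hm0.ne']
      rw [div_lt_iff₀ hlog] at hn1
      rw [div_lt_iff₀ hη0] at hn3
      have h6 : Real.log (2 * m n / n) ≤ 2 * η * Real.log n := by
        rw [h5]
        linarith
      have h7 : 1000 * (C n : ℝ) * Real.log (2 * m n / n) ≤ 1000 * b * (2 * η * Real.log n) := by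
        refine (mul_le_mul_of_nonneg_left h6 (by positivity)).trans ?_
        exact mul_le_mul_of_nonneg_right (by linarith) (by positivity)
      have h8 : 1000 * (b : ℝ) * (2 * η * Real.log n) = (b / (b + 1)) * Real.log n := by
        rw [hη]
        field_simp
        ring
      have h9 : (b : ℝ) / (b + 1) < 1 := by
        rw [div_lt_one hb0]
        linarith
      nlinarith

end Pool.Agent.Results.MP_7d1a15_lc.LowerBound
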