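import Pool.Agent.EHD.Asym

/-!
# Deterministic injective encodings of edit distance into the Hamming cube: dimension against
expansion (MP_7d1a15_lc, partial answer to Q1)

For every function `t ≥ 1` there are injective maps `f_n : T_n → {0,1}^{m(n)}` with
`m(n) ≤ n ^ (12 * 11 ^ t(n))` and expansion at most `26 * log* n * (⌊log₂ n⌋ / t(n) + 1)`.
-/

set_option autoImplicit false

namespace Pool.Agent.Results.MP_7d1a15_lc.Tradeoff

open Filter Topology
open Pool.Agent.EHD (logStar)

/-- `T_n`: the nonempty binary strings of length at most `n`. -/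
def T (n : ℕ) : Set (List Bool) := {x | x ≠ [] ∧ x.length ≤ n}

/-- One insertion, deletion or substitution of a character turns `x` into `y`. -/
inductive Edit : List Bool → List Bool → Prop
  | ins (u v : List Bool) (c : Bool) : Edit (u ++ v) (u ++ c :: v)
  | del (u v : List Bool) (c : Bool) : Edit (u ++ c :: v) (u ++ v)
  | sub (u v : List Bool) (c d : Bool) : Edit (u ++ c :: v) (u ++ d :: v)

/-- The edit distance: the least number of insertions, deletions and substitutions that turn `x`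
into `y`. -/
noncomputable def ed (x y : List Bool) : ℕ :=
  sInf {k | ∃ z : ℕ → List Bool, z 0 = x ∧ z k = y ∧ ∀ i < k, Edit (z i) (z (i + 1))}

lemma edit_of_ed {x y : List Bool} (h : ed x y = 1) : Edit x y := by
  have hne : {k | ∃ z : ℕ → List Bool, z 0 = x ∧ z k = y ∧ ∀ i < k, Edit (z i) (z (i + 1))}.Nonempty := by
    by_contra hcon
    rw [Set.not_nonempty_iff_eq_empty] at hcon
    unfold ed at h
    rw [hcon] at h
    simp at h
  have h1 := Nat.sInf_mem hne
  unfold ed at h
  rw [h] at h1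
  obtain ⟨z, hz0, hz1, hz⟩ := h1
  have := hz 0 (by norm_num)
  rw [hz0] at this
  rw [← hz1]
  exact this

lemma near_of_edit {x y : List Bool} (h : Edit x y) :
    Pool.Agent.EHD.Near 1 (Pool.Agent.EHD.P0 x) (Pool.Agent.EHD.P0 y) := by
  cases h with
  | ins u v c =>
    exact ⟨Pool.Agent.EHD.P0 u, [], [[c]], Pool.Agent.EHD.P0 v, by simp [Pool.Agent.EHD.P0],
      by simp [Pool.Agent.EHD.P0], by simp, by simp⟩
  | del u v c =>
    exact ⟨Pool.Agent.EHD.P0 u, [[c]], [], Pool.Agent.EHD.P0 v, by simp [Pool.Agent.EHD.P0],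
      by simp [Pool.Agent.EHD.P0], by simp, by simp⟩
  | sub u v c d =>
    exact ⟨Pool.Agent.EHD.P0 u, [[c]], [[d]], Pool.Agent.EHD.P0 v, by simp [Pool.Agent.EHD.P0],
      by simp [Pool.Agent.EHD.P0], by simp, by simp⟩

/-- For every function `t ≥ 1` there are injective maps `f_n : T_n → {0,1}^{m(n)}` with
`m(n) ≤ n ^ (12 * 11 ^ t(n))` and expansion `C(f_n) ≤ C(n) ≤ 26 * log* n * (⌊log₂ n⌋ / t(n) + 1)`;
if `log* n = o(t(n))` then `C(n) = o(log n)`. -/
theorem result (t : ℕ → ℕ) (ht : ∀ n, 1 ≤ t n) :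
    ∃ m C : ℕ → ℕ,
      (∀ n, 2 ≤ n → m n ≤ n ^ (12 * 11 ^ t n) ∧
        C n ≤ 26 * logStar n * (Nat.log 2 n / t n + 1) ∧
        ∃ f : List Bool → (Fin (m n) → Bool), Set.InjOn f (T n) ∧
          ∀ x ∈ T n, ∀ y ∈ T n, ed x y = 1 → hammingDist (f x) (f y) ≤ C n) ∧
      (Tendsto (fun n => (logStar n : ℝ) / t n) atTop (𝓝 0) →
        Tendsto (fun n => (C n : ℝ) / Real.log n) atTop (𝓝 0)) := by
  have key : ∀ n, ∃ m, 2 ≤ n → m ≤ n ^ (12 * 11 ^ t n) ∧
      ∃ f : List Bool → (Fin m → Bool), Set.InjOn f (T n) ∧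
        ∀ x ∈ T n, ∀ y ∈ T n, ed x y = 1 →
          hammingDist (f x) (f y) ≤ 26 * logStar n * (Nat.log 2 n / t n + 1) := by
    intro n
    by_cases hn : 2 ≤ n
    · obtain ⟨m, hm, f, h1, h2⟩ := Pool.Agent.EHD.main_tradeoff n (t n) hn (ht n)
      refine ⟨m, fun _ => ⟨hm, f, ?_, ?_⟩⟩
      · intro x hx y hy hxy
        exact h1 x y hx.1 hx.2 hy.1 hy.2 hxy
      · intro x _ y _ hxy
        exact h2 x y (near_of_edit (edit_of_ed hxy))
    · exact ⟨0, fun h => absurd h hn⟩
  choose m hm using key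
  refine ⟨m, fun n => 26 * logStar n * (Nat.log 2 n / t n + 1), ?_, ?_⟩
  · intro n hn
    obtain ⟨h1, h2⟩ := hm n hn
    exact ⟨h1, le_rfl, h2⟩
  · intro hlim
    have h1 : Tendsto (fun n => 52 * ((logStar n : ℝ) / t n) + 26 * ((logStar n : ℝ) / Real.log n))
        atTop (𝓝 (52 * 0 + 26 * 0)) :=
      (hlim.const_mul 52).add (Pool.Agent.EHD.logStar_div_log.const_mul 26)
    rw [mul_zero, mul_zero, add_zero] at h1
    refine squeeze_zero' ?_ ?_ h1
    · filter_upwards [eventually_ge_atTop 2] with n hn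
      have : 0 ≤ Real.log n := Real.log_natCast_nonneg n
      positivity
    · filter_upwards [eventually_ge_atTop 2] with n hn
      have hlog : 0 < Real.log n := Real.log_pos (by exact_mod_cast (by omega : 1 < n))
      have ht0 : (0 : ℝ) < t n := by exact_mod_cast ht n
      rw [div_le_iff₀ hlog]
      have e1 : ((Nat.log 2 n / t n : ℕ) : ℝ) ≤ (Nat.log 2 n : ℝ) / t n := Nat.cast_div_le
      have e2 := Pool.Agent.EHD.natLog_le n (by omega)
      have e3 : (Nat.log 2 n : ℝ) / t n ≤ 2 * Real.log n / t n :=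
        div_le_div_of_nonneg_right e2 ht0.le
      have e4 : (0 : ℝ) ≤ logStar n := Nat.cast_nonneg _
      push_cast
      have e5 : 26 * (logStar n : ℝ) * (((Nat.log 2 n / t n : ℕ) : ℝ) + 1)
          ≤ 26 * (logStar n : ℝ) * (2 * Real.log n / t n + 1) := by
        apply mul_le_mul_of_nonneg_left _ (by positivity)
        linarith
      refine e5.trans (le_of_eq ?_)
      field_simp
      ring

end Pool.Agent.Results.MP_7d1a15_lc.Tradeoff
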